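import Pool.Agent.H515.RG.Mod

/-! # The law for the field of the `p`-th roots of unity -/

set_option autoImplicit false
set_option linter.unusedSectionVars false
set_option linter.deprecated false

namespace Pool.Agent.H515.RG

open NumberField IsDedekindDomain Pool.Agent.W401.Cheb Pool.Agent.H515.CH Pool.Agent.H515.KV
open Filter Topology Module Pool.Agent.Q92.AR

section
variable {K M : IntermediateField ℚ ℂ} [NumberField K] [NumberField M]
  {p q : ℕ} [Fact p.Prime] [Fact q.Prime]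

/-- the number of the ambiguous classes -/
theorem layer_gen (hp2 : p ≠ 2) (hc : (Module.finrank ℚ K).Coprime p) (hM : Layer K p q M)
    (hqp : q ≠ p)
    (hun : ∀ v : HeightOneSpectrum (𝓞 K), (q : 𝓞 K) ∈ v.asIdeal → el q v = 1)
    {V : Type} [AddCommGroup V] [Module (ZMod p) V] [Finite V] {r : ℕ} (hV : Nat.card V = p ^ r)
    (π : Additive (𝓞 K)ˣ →+ V) (hπ : Function.Surjective π) (W : AddSubgroup V)
    (hW : ∀ u : (𝓞 K)ˣ, π (Additive.ofMul u) ∈ W ↔ ∀ v : HeightOneSpectrum (𝓞 K),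
      (q : 𝓞 K) ∈ v.asIdeal → ∃ c : 𝓞 K, (u : 𝓞 K) - c ^ p ∈ v.asIdeal)
    {j : ℕ} (hj : Nat.card W = p ^ j) :
    padicValNat p (Nat.card (Fixed K M)) + r + 1 = padicValNat p (classNumber K) +
      Nat.card {v : HeightOneSpectrum (𝓞 K) // (q : 𝓞 K) ∈ v.asIdeal} + j := by
  have hpp : p.Prime := Fact.out
  have hq : q.Prime := Fact.out
  obtain ⟨k, hk, hd, hMk⟩ := hM
  have hKM : K ≤ M := by rw [hMk]; exact le_sup_left
  have hkM : k ≤ M := by rw [hMk]; exact le_sup_right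
  have hodd : Odd (Module.finrank ℚ k) := by rw [hd]; exact hpp.odd_of_ne_two hp2
  have hreal := real_of_odd hq.ne_zero hk hodd
  let i1 := inc hKM
  obtain ⟨g1, g2, g3, g4⟩ := fld_facts hq hpp hKM hkM hMk.le hk hd hc hun
  have hR := realRam_layer hq.ne_zero hKM hkM hMk.le hk hreal
  have hcy : IsCyclic (M ≃ₐ[K] M) := by
    apply isCyclic_of_prime_card (p := p)
    rw [IsGalois.card_aut_eq_finrank, g2]
  obtain ⟨σ, hσ⟩ := hcy.exists_generator
  -- coordinates
  have : Module.Finite (ZMod p) V := Module.Finite.of_finite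
  have hfr : Module.finrank (ZMod p) V = r := by
    have hft := Fintype.ofFinite V
    have h1 := Module.card_eq_pow_finrank (K := ZMod p) (V := V)
    rw [← Nat.card_eq_fintype_card, ZMod.card, hV] at h1
    exact (Nat.pow_right_injective hpp.two_le h1).symm
  have e : V ≃ₗ[ZMod p] (Fin r → ZMod p) :=
    LinearEquiv.ofFinrankEq _ _ (by rw [hfr, Module.finrank_fin_fun])
  let π' : Additive (𝓞 K)ˣ →+ (Fin r → ZMod p) := (e : V →ₗ[ZMod p] (Fin r → ZMod p)).toAddMonoidHom.comp π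
  have h1 := local_law hσ hp2 g2 hq hqp g3 g4 hun (fun φ => by
    by_contra hcon
    exact hR.false ⟨φ, hcon⟩) π' (e.surjective.comp hπ)
    (W.map (e : V →ₗ[ZMod p] (Fin r → ZMod p)).toAddMonoidHom) (fun u => by
      rw [← hW u]
      constructor
      · rintro ⟨x, hx, hxe⟩
        have h2 : x = π (Additive.ofMul u) := e.injective hxe
        rw [← h2]
        exact hx
      · intro h
        exact ⟨_, h, rfl⟩) (j := j) (by
      rw [← hj]
      exact Nat.card_congr ((AddSubgroup.equivMapOfInjective W _ e.injective).toEquiv).symm)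
  rw [card_Fixed hKM]
  exact h1

end

section
variable {K : Type} [Field K] [NumberField K] {p : ℕ} [Fact p.Prime] (q : ℕ) {V : Type}
  [AddCommGroup V] [Module (ZMod p) V] (π : Additive (𝓞 K)ˣ →+ V)

/-- the image of the units which are `p`-th powers modulo all primes above `q` -/
def Wg : AddSubgroup V where
  carrier := {x | ∃ u ∈ Uq K p q, π u = x}
  zero_mem' := ⟨0, AddSubmonoid.zero_mem _, map_zero π⟩
  add_mem' := by
    rintro _ _ ⟨u, hu, rfl⟩ ⟨w, hw, rfl⟩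
    exact ⟨u + w, AddSubmonoid.add_mem _ hu hw, map_add π u w⟩
  neg_mem' := by
    rintro _ ⟨u, hu, rfl⟩
    refine ⟨(p - 1) • u, AddSubmonoid.nsmul_mem _ hu _, ?_⟩
    have hp : p.Prime := Fact.out
    have h1 : p • π u = 0 := by
      rw [← Nat.cast_smul_eq_nsmul (ZMod p), CharP.cast_eq_zero, zero_smul]
    have h2 : p • π u = (p - 1) • π u + π u := by
      rw [← succ_nsmul]
      congr 1
      have := hp.pos
      omega
    rw [map_nsmul]
    rw [h1] at h2
    exact eq_neg_of_add_eq_zero_left h2.symm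

theorem mem_Wg (hker : ∀ x, π x = 0 ↔ ∃ y, p • y = x) (u : (𝓞 K)ˣ) :
    π (Additive.ofMul u) ∈ Wg (p := p) q π ↔ ∀ v : HeightOneSpectrum (𝓞 K),
      (q : 𝓞 K) ∈ v.asIdeal → ∃ c : 𝓞 K, (u : 𝓞 K) - c ^ p ∈ v.asIdeal := by
  constructor
  · rintro ⟨u', hu', h⟩
    have h1 : π (Additive.ofMul u - u') = 0 := by rw [map_sub, h, sub_self]
    obtain ⟨y, hy⟩ := (hker _).1 h1
    have h2 : Additive.ofMul u = u' + p • y := sub_eq_iff_eq_add'.1 hy.symm
    have h3 : p • y ∈ Uq K p q := by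
      intro v _
      refine ⟨((y.toMul : (𝓞 K)ˣ) : 𝓞 K), ?_⟩
      have e : (((p • y).toMul : (𝓞 K)ˣ) : 𝓞 K) - ((y.toMul : (𝓞 K)ˣ) : 𝓞 K) ^ p = 0 := by
        rw [toMul_nsmul, Units.val_pow_eq_pow_val, sub_self]
      rw [e]
      exact v.asIdeal.zero_mem
    have h4 : Additive.ofMul u ∈ Uq K p q := by
      rw [h2]
      exact AddSubmonoid.add_mem _ hu' h3
    exact h4
  · intro h
    exact ⟨Additive.ofMul u, h, rfl⟩

end

/-- roots of unity -/
theorem hh_iff {p : ℕ} [Fact p.Prime] {K L : IntermediateField ℚ ℂ} [NumberField K] [NumberField L]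
    (hK : K ≤ cyc p) (hKL : K ≤ L) (hCL : cyc p ≤ L) {ζ : L} (hζ : IsPrimitiveRoot ζ p)
    (g : L ≃ₐ[ℚ] L) :
    letI := inc hKL
    g ∈ HH K ζ ↔ g ζ = ζ := by
  have hp : p.Prime := Fact.out
  let i1 := inc hKL
  refine ⟨fun h => h.2, fun h => ⟨?_, h⟩⟩
  intro x
  have hx : ((x : K) : ℂ) ∈ cyc p := hK x.2
  have key : ∀ z ∈ cyc p, ∀ y : L, (y : ℂ) = z → g y = y := by
    intro z hz
    induction hz using IntermediateField.adjoin_induction with
    | mem z hz =>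
      intro y hy
      have h1 : y ^ p = 1 := by
        apply Subtype.ext
        change (y : ℂ) ^ p = 1
        rw [hy]
        exact hz
      have : NeZero p := ⟨hp.ne_zero⟩
      obtain ⟨i, -, rfl⟩ := hζ.eq_pow_of_pow_eq_one h1
      rw [map_pow, h]
    | algebraMap r =>
      intro y hy
      have h1 : y = algebraMap ℚ L r := Subtype.ext (by
        rw [hy]
        simp)
      rw [h1, AlgEquiv.commutes]
    | add a b ha hb iha ihb =>
      intro y hy
      have h1 : y = ⟨a, hCL ha⟩ + ⟨b, hCL hb⟩ := Subtype.ext hy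
      rw [h1, map_add, iha _ rfl, ihb _ rfl]
    | inv a ha iha =>
      intro y hy
      have h1 : y = (⟨a, hCL ha⟩ : L)⁻¹ := Subtype.ext hy
      rw [h1, map_inv₀, iha _ rfl]
    | mul a b ha hb iha ihb =>
      intro y hy
      have h1 : y = ⟨a, hCL ha⟩ * ⟨b, hCL hb⟩ := Subtype.ext hy
      rw [h1, map_mul, iha _ rfl, ihb _ rfl]
  exact key _ hx _ rfl

section
variable {K L : Type} [Field K] [NumberField K] [IsGalois ℚ K]
  [Field L] [NumberField L] [Algebra K L]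
  {p q : ℕ} [Fact p.Prime] [Fact q.Prime] {ζ : L} (hζ : IsPrimitiveRoot ζ p) (hqp : q ≠ p)
  {φ : 𝓞 L →+* AlgebraicClosure (ZMod q)} {g : L ≃ₐ[ℚ] L} (hF : HasFrob q φ g)
  (hroot : ∀ u : (𝓞 K)ˣ, ∃ y : L, y ^ p = uL L u)
  {V : Type} [AddCommGroup V] [Module (ZMod p) V] (π : Additive (𝓞 K)ˣ →+ V)
  (hπ : Function.Surjective π) (hker : ∀ x, π x = 0 ↔ ∃ y, p • y = x)
  {σ : K ≃ₐ[ℚ] K} (hσ : ∀ g : K ≃ₐ[ℚ] K, g ∈ Subgroup.zpowers σ)
  {f : V →ₗ[ZMod p] V} (hf : ∀ u : (𝓞 K)ˣ, π (Additive.ofMul (uA σ u)) = f (π (Additive.ofMul u)))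

include hf in
theorem pi_pow' (n : ℕ) (u : (𝓞 K)ˣ) :
    π (Additive.ofMul (uA (σ ^ n) u)) = (f ^ n) (π (Additive.ofMul u)) := by
  induction n with
  | zero => rw [pow_zero, uA_one, pow_zero, Module.End.one_apply]
  | succ n ih => rw [pow_succ', uA_mul, hf, ih, pow_succ', Module.End.mul_apply]

include hqp hF hσ hf in
/-- the subspace of the units which are `p`-th powers modulo all primes above `q` -/
theorem mem_W' (hg : g ∈ HH K ζ) (u : (𝓞 K)ˣ) :
    π (Additive.ofMul u) ∈ (KK f (fo hζ hroot π hπ hker ⟨g, hg⟩)).toAddSubgroup ↔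
      ∀ v : HeightOneSpectrum (𝓞 K), (q : 𝓞 K) ∈ v.asIdeal → ∃ c : 𝓞 K, (u : 𝓞 K) - c ^ p ∈ v.asIdeal := by
  rw [res_all hζ hqp hF hroot hσ hg, Submodule.mem_toAddSubgroup, mem_KK]
  refine forall_congr' fun n => ?_
  rw [← pi_pow' π hf, fo_π]

end

section
variable {p : ℕ} [Fact p.Prime] (hp2 : p ≠ 2) [NumberField (cyc p)]
include hp2

omit hp2 in
theorem exists_gen_cyc : ∃ σ : cyc p ≃ₐ[ℚ] cyc p, ∀ g : cyc p ≃ₐ[ℚ] cyc p,
    g ∈ Subgroup.zpowers σ := by
  have hp : p.Prime := Fact.out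
  have hcg : IsGalois ℚ (cyc p) := (cyc_ab hp.ne_zero).toIsGalois
  exact exists_gen le_rfl

omit hp2 in
theorem finrank_cyc : Module.finrank ℚ (cyc p) = p - 1 := by
  have hp : p.Prime := Fact.out
  have hce : IsCyclotomicExtension {p} ℚ (cyc p) := cyc_ext hp.ne_zero
  rw [IsCyclotomicExtension.Rat.finrank p (cyc p), Nat.totient_prime hp]

theorem card_V {A : Finset (ZMod p)} {V : Type} [AddCommGroup V] [Module (ZMod p) V]
    (b : Basis A (ZMod p) V) : Nat.card V = p ^ A.card := by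
  rw [Nat.card_congr b.equivFun.toEquiv, Nat.card_fun, Nat.card_zmod, Nat.card_eq_fintype_card,
    Fintype.card_coe]

/-- **every prime congruent to `1` modulo `p`** -/
theorem law_all_cyc {q : ℕ} [Fact q.Prime] {M : IntermediateField ℚ ℂ} [NumberField M]
    (hM : Layer (cyc p) p q M) : ∃ j ≤ (p - 1) / 2,
      padicValNat p (Nat.card (Fixed (cyc p) M)) =
        padicValNat p (classNumber (cyc p)) + (p - 3) / 2 + j := by
  have hp : p.Prime := Fact.out
  have hq : q.Prime := Fact.out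
  have hG : IsGalois ℚ (cyc p) := (cyc_ab hp.ne_zero).toIsGalois
  have hq1 := layer_dvd hq hM
  have hqp : q ≠ p := by
    rintro rfl
    have h1 : q ∣ q - 1 := (Nat.modEq_iff_dvd' hq.one_lt.le).1 hq1.symm
    have h2 := Nat.le_of_dvd (by have := hq.one_lt; omega) h1
    have := hq.pos
    omega
  obtain ⟨σ, hσ⟩ := exists_gen_cyc (p := p)
  obtain ⟨r, f, π, A, b, hπ, hker, hf, hA, hr, hb⟩ := unit_mod_cyc p hp2 hσ
  have hV := card_V hp2 b
  have hcard : Nat.card (Wg (p := p) q π) ∣ p ^ A.card := by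
    rw [← hV]
    exact AddSubgroup.card_addSubgroup_dvd_card _
  obtain ⟨j, hj, hjc⟩ := (Nat.dvd_prime_pow hp).1 hcard
  have hm : Module.finrank ℚ (cyc p) ∣ p - 1 := by rw [finrank_cyc]
  have h1 := layer_gen hp2 (coprime_of hp Module.finrank_pos hm) hM hqp
    (fun v hv => el_one hp hqp le_rfl v hv) hV π hπ (Wg (p := p) q π) (mem_Wg q π hker) hjc
  rw [card_above le_rfl hqp hq1, finrank_cyc] at h1
  refine ⟨j, by omega, ?_⟩
  have h3 : 3 ≤ p := by
    have := hp.two_le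
    omega
  omega

/-- the property of `q` -/
def PC (p : ℕ) [NumberField (cyc p)] (j q : ℕ) : Prop :=
  ∃ (M : IntermediateField ℚ ℂ) (_ : NumberField M), Layer (cyc p) p q M ∧
    padicValNat p (Nat.card (Fixed (cyc p) M)) =
      padicValNat p (classNumber (cyc p)) + (p - 3) / 2 + j

theorem binomial_cyc (j : ℕ) : Tendsto (dn (PC p j)) atTop
    (𝓝 (((((p - 1) / 2).choose j * (p - 1) ^ ((p - 1) / 2 - j) : ℕ) : ℝ) /
      ((p ^ ((p - 1) / 2) * (p - 1) : ℕ) : ℝ))) := by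
  classical
  have hp : p.Prime := Fact.out
  have hG : IsGalois ℚ (cyc p) := (cyc_ab hp.ne_zero).toIsGalois
  obtain ⟨σ, hσ⟩ := exists_gen_cyc (p := p)
  obtain ⟨r, f, π, A, b, hπ, hker, hf, hA, hr, hb⟩ := unit_mod_cyc p hp2 hσ
  have hV := card_V hp2 b
  have h3 : 3 ≤ p := by
    have := hp.two_le
    omega
  have hA' : A.card = (p - 1) / 2 := by omega
  obtain ⟨L, hKL, hCL, hLf, hLG, hLr⟩ := exists_L (cyc p) hp π hker
  let i1 := inc hKL
  have hζ0 := Complex.isPrimitiveRoot_exp p hp.ne_zero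
  have hζm : Complex.exp (2 * Real.pi * Complex.I / p) ∈ L :=
    hCL (IntermediateField.subset_adjoin ℚ _ hζ0.pow_eq_one)
  obtain ⟨ζ, hζd⟩ : ∃ ζ : L, (ζ : ℂ) = Complex.exp (2 * Real.pi * Complex.I / p) := ⟨⟨_, hζm⟩, rfl⟩
  have hζ : IsPrimitiveRoot ζ p := by
    refine IsPrimitiveRoot.of_map_of_injective (f := algebraMap L ℂ) ?_ (algebraMap L ℂ).injective
    change IsPrimitiveRoot (ζ : ℂ) p
    rw [hζd]
    exact hζ0
  have hroot : ∀ u : (𝓞 (cyc p))ˣ, ∃ y : L, y ^ p = uL L u := by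
    intro u
    obtain ⟨y, hy, hyp⟩ := hLr u
    exact ⟨⟨y, hy⟩, Subtype.ext hyp⟩
  have hHH : ∀ g : L ≃ₐ[ℚ] L, g ∈ HH (cyc p) ζ ↔ g ζ = ζ := hh_iff le_rfl hKL hCL hζ
  have hm : Module.finrank ℚ (cyc p) ∣ p - 1 := by rw [finrank_cyc]
  let T : Set (((Fin r → ZMod p) × ZMod p) →ₗ[ZMod p] ZMod p) :=
    {φ | Nat.card (KK f φ) = Nat.card (ZMod p) ^ j}
  let S : Set (L ≃ₐ[ℚ] L) := {g | ∃ h : g ∈ HH (cyc p) ζ, fo hζ hroot π hπ hker ⟨g, h⟩ ∈ T}
  have hmain := dens L S (PC p j) p hp.pos (by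
    intro q hfq hqd φ g hF
    have hq : q.Prime := Fact.out
    have hqp : q ≠ p := fun h => hqd (by rw [h])
    have hun : ∀ v : HeightOneSpectrum (𝓞 (cyc p)), (q : 𝓞 (cyc p)) ∈ v.asIdeal → el q v = 1 :=
      fun v hv => el_one hp hqp le_rfl v hv
    have hval : ∀ (h : g ∈ HH (cyc p) ζ) (M : IntermediateField ℚ ℂ) (_ : NumberField M),
        Layer (cyc p) p q M → ∀ i : ℕ, Nat.card (KK f (fo hζ hroot π hπ hker ⟨g, h⟩)) = p ^ i →
        padicValNat p (Nat.card (Fixed (cyc p) M)) =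
          padicValNat p (classNumber (cyc p)) + (p - 3) / 2 + i := by
      intro h M _ hM i hi
      have h1 := layer_gen hp2 (coprime_of hp Module.finrank_pos hm) hM hqp hun hV π hπ _
        (mem_W' hζ hqp hF hroot π hπ hker hσ hf h) hi
      rw [card_primes hF h hun, finrank_cyc, hA'] at h1
      omega
    constructor
    · rintro ⟨M, hMf, hM, hv⟩
      have hq1 := layer_dvd hq hM
      have hg : g ∈ HH (cyc p) ζ := (hHH g).2 ((frob_zeta hζ hqp hF).1 hq1)
      refine ⟨hg, ?_⟩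
      change Nat.card (KK f _) = Nat.card (ZMod p) ^ j
      have hft := Fintype.ofFinite (KK f (fo hζ hroot π hπ hker ⟨g, hg⟩))
      have h1 := Module.card_eq_pow_finrank (K := ZMod p)
        (V := KK f (fo hζ hroot π hπ hker ⟨g, hg⟩))
      rw [← Nat.card_eq_fintype_card, ZMod.card] at h1
      have h2 := hval hg M hMf hM _ h1
      rw [hv] at h2
      have h3 := Nat.add_left_cancel h2
      rw [h1, Nat.card_zmod, ← h3]
    · rintro ⟨hg, hgT⟩
      have hq1 : q ≡ 1 [MOD p] := (frob_zeta hζ hqp hF).2 ((hHH g).1 hg)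
      obtain ⟨M, hM⟩ := exists_layer (K := cyc p) (p := p) le_rfl hq1
      have hMf := layer_fin hq.ne_zero hM
      refine ⟨M, hMf, hM, hval hg M hMf hM j ?_⟩
      have h1 : Nat.card (KK f (fo hζ hroot π hπ hker ⟨g, hg⟩)) = Nat.card (ZMod p) ^ j := hgT
      rwa [Nat.card_zmod] at h1)
  have h1 : Nat.card S = Nat.card {g : HH (cyc p) ζ // fo hζ hroot π hπ hker g ∈ T} := by
    apply Nat.card_congr
    exact { toFun := fun g => ⟨⟨g.1, g.2.choose⟩, g.2.choose_spec⟩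
            invFun := fun g => ⟨g.1.1, g.1.2, g.2⟩
            left_inv := fun g => rfl
            right_inv := fun g => rfl }
  have h2 := card_forms hζ hroot π hπ hker T
  have h3 : Nat.card T = A.card.choose j * (Nat.card (ZMod p) - 1) ^ (A.card - j) :=
    count_forms b hb j
  have h4 : Nat.card (((Fin r → ZMod p) × ZMod p) →ₗ[ZMod p] ZMod p) = p ^ A.card := by
    have e : (((Fin r → ZMod p) × ZMod p) →ₗ[ZMod p] ZMod p) ≃ (A → ZMod p) :=
      (b.constr (ZMod p) (M' := ZMod p)).symm.toEquiv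
    rw [Nat.card_congr e, Nat.card_fun, Nat.card_zmod, Nat.card_eq_fintype_card, Fintype.card_coe]
  have h5 : Nat.card (HH (cyc p) ζ) * (p - 1) = Nat.card (L ≃ₐ[ℚ] L) := by
    rw [← card_fix hp hζ]
    congr 1
    exact Nat.card_congr (Equiv.subtypeEquivRight hHH)
  rw [← h1, h4, h3, hA', Nat.card_zmod] at h2
  have hG0 : (Nat.card (L ≃ₐ[ℚ] L) : ℝ) ≠ 0 := Nat.cast_ne_zero.2 Nat.card_pos.ne'
  have hp0 : ((p ^ ((p - 1) / 2) * (p - 1) : ℕ) : ℝ) ≠ 0 := by
    have := hp.one_lt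
    exact Nat.cast_ne_zero.2 (Nat.mul_pos (pow_pos hp.pos _) (by omega)).ne'
  have h6 : (Nat.card S : ℝ) / (Nat.card (L ≃ₐ[ℚ] L) : ℝ) =
      ((((p - 1) / 2).choose j * (p - 1) ^ ((p - 1) / 2 - j) : ℕ) : ℝ) /
      ((p ^ ((p - 1) / 2) * (p - 1) : ℕ) : ℝ) := by
    rw [div_eq_div_iff hG0 hp0, ← Nat.cast_mul, ← Nat.cast_mul]
    congr 1
    rw [← mul_assoc, h2, ← h5]
    ring
  rw [← h6]
  exact hmain

end

end Pool.Agent.H515.RG
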