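import Pool.Agent.H515.RG.Uni

/-! # The units of the field of the `p`-th roots of unity modulo `p`-th powers, part 2 -/

set_option autoImplicit false
set_option linter.unusedSectionVars false
set_option linter.deprecated false

namespace Pool.Agent.H515.RG

open NumberField IsDedekindDomain Pool.Agent.H515.CH Pool.Agent.H515.KV Module

/-- **The units modulo `p`-th powers** -/
theorem unit_mod_cyc (p : ℕ) [Fact p.Prime] (hp2 : p ≠ 2) [NumberField (cyc p)]
    {σ : cyc p ≃ₐ[ℚ] cyc p} (hσ : ∀ g : cyc p ≃ₐ[ℚ] cyc p, g ∈ Subgroup.zpowers σ) :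
    ∃ (r : ℕ) (f : ((Fin r → ZMod p) × ZMod p) →ₗ[ZMod p] ((Fin r → ZMod p) × ZMod p))
      (π : Additive (𝓞 (cyc p))ˣ →+ ((Fin r → ZMod p) × ZMod p)) (A : Finset (ZMod p))
      (b : Basis A (ZMod p) ((Fin r → ZMod p) × ZMod p)),
      Function.Surjective π ∧ (∀ x, π x = 0 ↔ ∃ y, p • y = x) ∧
      (∀ u : (𝓞 (cyc p))ˣ, π (Additive.ofMul (uA σ u)) = f (π (Additive.ofMul u))) ∧
      2 * A.card = p - 1 ∧ 2 * (r + 1) = p - 1 ∧ ∀ a, f (b a) = (a : ZMod p) • b a := by
  classical
  have hp : p.Prime := Fact.out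
  have hne : NeZero p := ⟨hp.ne_zero⟩
  have hce : IsCyclotomicExtension {p} ℚ (cyc p) := cyc_ext hp.ne_zero
  have hcg : IsAbelianGalois ℚ (cyc p) := cyc_ab hp.ne_zero
  have hcG : IsGalois ℚ (cyc p) := hcg.toIsGalois
  have hcomm : ∀ a b : cyc p ≃ₐ[ℚ] cyc p, a * b = b * a := fun a b =>
    IsMulCommutative.is_comm.comm a b
  obtain ⟨KP, hle, hreal, hmax, hdeg⟩ := exists_KP p hp2
  have hKf : NumberField KP := nf (sub_fin hp.ne_zero hle)
  have hKG : IsGalois ℚ KP := sub_gal hp.ne_zero hle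
  have hKN : Normal ℚ KP := inferInstance
  have hKT : IsTotallyReal KP := tot_real hreal
  obtain ⟨c, hc⟩ := exists_conj (k := cyc p)
  obtain ⟨ζ, hζ⟩ : ∃ ζ : cyc p, IsPrimitiveRoot ζ p := ⟨_, IsCyclotomicExtension.zeta_spec p ℚ (cyc p)⟩
  let i1 := inc hle
  have i2 : IsScalarTower ℚ KP (cyc p) := IsScalarTower.of_algebraMap_eq fun x => rfl
  -- the generator of the Galois group of the real subfield
  let σP : KP ≃ₐ[ℚ] KP := σ.restrictNormal KP
  have hσP : ∀ x : KP, algebraMap KP (cyc p) (σP x) = σ (algebraMap KP (cyc p) x) :=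
    fun x => AlgEquiv.restrictNormal_commutes σ KP x
  have hpow : ∀ (n : ℕ) (x : KP), algebraMap KP (cyc p) ((σP ^ n) x) =
      (σ ^ n) (algebraMap KP (cyc p) x) := by
    intro n
    induction n with
    | zero => intro x; rfl
    | succ n ih =>
      intro x
      rw [pow_succ', pow_succ', AlgEquiv.mul_apply, AlgEquiv.mul_apply, hσP, ih]
  have hgen : ∀ g : KP ≃ₐ[ℚ] KP, g ∈ Subgroup.zpowers σP := by
    intro g
    obtain ⟨g', hg'⟩ := AlgEquiv.restrictNormalHom_surjective (F := ℚ) (K₁ := KP) (cyc p) g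
    obtain ⟨n, hn⟩ := exists_pow hσ g'
    refine ⟨n, ?_⟩
    rw [← hg', ← hn]
    change σP ^ (n : ℤ) = _
    rw [zpow_natCast]
    exact (map_pow (AlgEquiv.restrictNormalHom (F := ℚ) (K₁ := cyc p) KP) σ n).symm
  have hm : Module.finrank ℚ KP ∣ p - 1 := finrank_dvd' hle
  obtain ⟨fP, πP, AP, bP, hπP, hkerP, hfP, hAP, hbP⟩ := unit_mod hgen p hp2 hm
  -- the real part of a unit
  choose w hw using exists_w' hle hmax hc
  have hinj := io_inj hle
  have hw_mul : ∀ u v, w (u * v) = w u * w v := by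
    intro u v
    apply hinj
    rw [map_mul, hw, hw, hw, map_mul]
    exact mul_mul_mul_comm _ _ _ _
  have hw_io : ∀ v, w (io hle v) = v ^ 2 := by
    intro v
    apply hinj
    rw [map_pow, hw, pow_two]
    congr 1
    apply Units.ext
    apply RingOfIntegers.ext
    apply Subtype.ext
    change ((c _ : cyc p) : ℂ) = _
    rw [hc]
    exact hreal _ (((v : 𝓞 KP) : KP)).2
  have hw_σ : ∀ u, w (uA σ u) = uA σP (w u) := by
    intro u
    apply hinj
    have e1 : io hle (uA σP (w u)) = uA σ (io hle (w u)) := by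
      apply Units.ext
      apply RingOfIntegers.ext
      exact hσP _
    rw [e1, hw, hw, map_mul]
    congr 1
    rw [← uA_mul, ← uA_mul]
    rw [hcomm c σ]
  -- the character of the unit
  choose β hβ using exists_beta hc hp2 hζ
  have hu0 : ∀ u : (𝓞 (cyc p))ˣ, ((u : 𝓞 (cyc p)) : cyc p) ≠ 0 :=
    fun u h => u.ne_zero (RingOfIntegers.ext h)
  have hcoe : ∀ u v : (𝓞 (cyc p))ˣ, (((u * v : (𝓞 (cyc p))ˣ) : 𝓞 (cyc p)) : cyc p) =
      ((u : 𝓞 (cyc p)) : cyc p) * ((v : 𝓞 (cyc p)) : cyc p) := fun u v => rfl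
  have hβ_mul : ∀ u v, β (u * v) = β u + β v := by
    intro u v
    apply zp_inj hζ
    rw [zp_add hζ, ← hβ, ← hβ, ← hβ, hcoe, map_mul, mul_div_mul_comm, mul_pow]
  obtain ⟨g, hg⟩ : ∃ g : ZMod p, σ ζ = zp ζ g :=
    ⟨_, (exists_zp hζ (x := σ ζ) (y := 1) one_ne_zero (by
      rw [one_pow, ← map_pow, hζ.pow_eq_one, map_one])).choose_spec.trans (mul_one _)⟩
  have hσz : ∀ a : ZMod p, σ (zp ζ a) = zp ζ (g * a) := by
    intro a
    have e1 : zp ζ a = ζ ^ a.val := rfl
    have e2 : zp ζ g = ζ ^ g.val := rfl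
    rw [e1, map_pow, hg, e2, ← pow_mul, ← zp_nat hζ, Nat.cast_mul, ZMod.natCast_zmod_val,
      ZMod.natCast_zmod_val]
  have hβ_σ : ∀ u, β (uA σ u) = g * β u := by
    intro u
    apply zp_inj hζ
    rw [← hσz, ← hβ, ← hβ, map_pow, map_div₀]
    congr 2
    change c (σ _) = σ (c _)
    exact congrArg (fun h : cyc p ≃ₐ[ℚ] cyc p => h ((u : 𝓞 (cyc p)) : cyc p)) (hcomm c σ)
  have hβ_io : ∀ v, β (io hle v) = 0 := by
    intro v
    apply zp_inj hζ
    rw [← hβ, zp_zero]
    have e1 : c (((io hle v : (𝓞 (cyc p))ˣ) : 𝓞 (cyc p)) : cyc p) =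
        (((io hle v : (𝓞 (cyc p))ˣ) : 𝓞 (cyc p)) : cyc p) := by
      apply Subtype.ext
      rw [hc]
      exact hreal _ (((v : 𝓞 KP) : KP)).2
    rw [e1, div_self (hu0 _), one_pow]
  -- the root of unity
  let z : (𝓞 (cyc p))ˣ := ⟨oi (x := ζ) hp.pos (by rw [hζ.pow_eq_one]; exact isIntegral_one),
    oi (x := ζ⁻¹) hp.pos (by rw [inv_pow, hζ.pow_eq_one, inv_one]; exact isIntegral_one),
    RingOfIntegers.ext (mul_inv_cancel₀ (hζ.ne_zero hp.ne_zero)),
    RingOfIntegers.ext (inv_mul_cancel₀ (hζ.ne_zero hp.ne_zero))⟩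
  have hz : ((z : 𝓞 (cyc p)) : cyc p) = ζ := rfl
  have hroot : ∀ y : cyc p, y ^ p = 1 → c y = y⁻¹ := by
    intro y hy
    apply Subtype.ext
    rw [hc]
    have h3 : (y : ℂ) ^ p = 1 := congrArg Subtype.val hy
    have h4 : ‖(y : ℂ)‖ = 1 := Complex.norm_eq_one_of_pow_eq_one h3 hp.ne_zero
    change starRingEnd ℂ (y : ℂ) = (y : ℂ)⁻¹
    rw [Complex.inv_def, Complex.normSq_eq_norm_sq, h4]
    simp
  have hβz : β z = 4 := by
    apply zp_inj hζ
    have h4 : zp ζ (4 : ZMod p) = ζ ^ 4 := by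
      have := zp_nat hζ 4
      rwa [Nat.cast_ofNat] at this
    rw [← hβ, hz, hroot ζ hζ.pow_eq_one, h4, div_inv_eq_mul, ← pow_two, ← pow_mul]
  have hwz : w z = 1 := by
    apply hinj
    rw [hw, map_one]
    apply Units.ext
    apply RingOfIntegers.ext
    change ζ * c ζ = 1
    rw [hroot ζ hζ.pow_eq_one, mul_inv_cancel₀ (hζ.ne_zero hp.ne_zero)]
  -- the map
  let π : Additive (𝓞 (cyc p))ˣ →+ ((Fin (Units.rank KP) → ZMod p) × ZMod p) :=
    AddMonoidHom.mk' (fun u => (πP (Additive.ofMul (w u.toMul)), β u.toMul)) fun u v => by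
      refine Prod.ext ?_ ?_
      · change πP (Additive.ofMul (w (u.toMul * v.toMul))) = _
        rw [hw_mul, ofMul_mul, map_add]
        rfl
      · exact hβ_mul _ _
  have hπ : ∀ u : (𝓞 (cyc p))ˣ, π (Additive.ofMul u) = (πP (Additive.ofMul (w u)), β u) := fun _ => rfl
  let f : ((Fin (Units.rank KP) → ZMod p) × ZMod p) →ₗ[ZMod p]
      ((Fin (Units.rank KP) → ZMod p) × ZMod p) := fP.prodMap (g • LinearMap.id)
  -- `g` is not an eigenvalue of `fP`
  obtain ⟨n, hn⟩ := exists_pow hσ c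
  have hgn : g ^ n = -1 := by
    have h1 : ∀ n : ℕ, (σ ^ n) ζ = zp ζ (g ^ n) := by
      intro n
      induction n with
      | zero =>
        rw [pow_zero, pow_zero]
        have := zp_nat hζ 1
        rw [Nat.cast_one, pow_one] at this
        exact this.symm
      | succ n ih => rw [pow_succ', AlgEquiv.mul_apply, ih, hσz, pow_succ']
    apply zp_inj hζ
    rw [← h1, hn, hroot ζ hζ.pow_eq_one]
    have h2 := zp_nat hζ 1
    rw [Nat.cast_one, pow_one] at h2
    have h3 : zp ζ (-1 : ZMod p) * ζ = 1 := by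
      nth_rewrite 2 [← h2]
      rw [← zp_add hζ, neg_add_cancel, zp_zero]
    exact (eq_inv_of_mul_eq_one_left h3).symm
  have hσPn : σP ^ n = 1 := by
    ext x
    have e1 := hpow n x
    rw [hn] at e1
    have e2 : c (algebraMap KP (cyc p) x) = algebraMap KP (cyc p) x := by
      apply Subtype.ext
      rw [hc]
      exact hreal _ x.2
    rw [e2] at e1
    exact congrArg Subtype.val ((algebraMap KP (cyc p)).injective e1)
  have hfPn : fP ^ n = 1 := by
    apply LinearMap.ext
    intro v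
    obtain ⟨u, rfl⟩ := hπP v
    obtain ⟨u, rfl⟩ : ∃ u', Additive.ofMul u' = u := ⟨u.toMul, rfl⟩
    rw [← pi_pow πP hfP, hσPn, uA_one]
    rfl
  have hgA : g ∉ AP := by
    intro h
    have h1 : ∀ k : ℕ, (fP ^ k) (bP ⟨g, h⟩) = g ^ k • bP ⟨g, h⟩ := by
      intro k
      induction k with
      | zero => simp
      | succ k ih => rw [pow_succ', Module.End.mul_apply, ih, map_smul, hbP, smul_smul, pow_succ]
    have h2 := h1 n
    rw [hfPn, Module.End.one_apply, hgn] at h2
    have h3 : (2 : ZMod p) • bP ⟨g, h⟩ = 0 := by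
      rw [two_smul]
      nth_rewrite 1 [h2]
      rw [neg_smul, one_smul, neg_add_cancel]
    rcases smul_eq_zero.1 h3 with h4 | h4
    · have h5 : ((2 : ℕ) : ZMod p) = 0 := by exact_mod_cast h4
      rw [CharP.cast_eq_zero_iff (ZMod p) p] at h5
      exact hp2 ((Nat.prime_dvd_prime_iff_eq hp Nat.prime_two).1 h5)
    · exact bP.ne_zero _ h4
  -- the basis
  let b0 := bP.prod (Basis.singleton Unit (ZMod p))
  let e : AP ⊕ Unit ≃ ↥(insert g AP) :=
    { toFun := fun x => Sum.elim (fun a => ⟨a.1, Finset.mem_insert_of_mem a.2⟩)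
        (fun _ => ⟨g, Finset.mem_insert_self _ _⟩) x
      invFun := fun a => if h : a.1 ∈ AP then Sum.inl ⟨a.1, h⟩ else Sum.inr ()
      left_inv := by
        rintro (a | a)
        · exact dif_pos a.2
        · exact dif_neg hgA
      right_inv := by
        rintro ⟨a, ha⟩
        by_cases h : a ∈ AP
        · simp only [dif_pos h]
          rfl
        · have : a = g := (Finset.mem_insert.1 ha).resolve_right h
          subst this
          simp only [dif_neg h]
          rfl }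
  refine ⟨Units.rank KP, f, π, insert g AP, b0.reindex e, ?_, ?_, ?_, ?_, ?_, ?_⟩
  · -- surjectivity
    have h2u : IsUnit (2 : ZMod p) := by
      rw [isUnit_iff_ne_zero]
      intro h4
      have h5 : ((2 : ℕ) : ZMod p) = 0 := by exact_mod_cast h4
      rw [CharP.cast_eq_zero_iff (ZMod p) p] at h5
      exact hp2 ((Nat.prime_dvd_prime_iff_eq hp Nat.prime_two).1 h5)
    have h20 : (2 : ZMod p) ≠ 0 := h2u.ne_zero
    rintro ⟨v, t⟩
    obtain ⟨v', hv'⟩ := hπP ((2 : ZMod p)⁻¹ • v)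
    obtain ⟨v', rfl⟩ : ∃ u', Additive.ofMul u' = v' := ⟨v'.toMul, rfl⟩
    refine ⟨Additive.ofMul (io hle v' * z ^ ((4 : ZMod p)⁻¹ * t).val), ?_⟩
    have hwpow : ∀ k : ℕ, w (z ^ k) = 1 := by
      intro k
      induction k with
      | zero =>
        rw [pow_zero]
        apply hinj
        rw [hw, map_one, map_one, mul_one]
      | succ k ih => rw [pow_succ, hw_mul, ih, hwz, mul_one]
    have hβpow : ∀ k : ℕ, β (z ^ k) = k * 4 := by
      intro k
      induction k with
      | zero =>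
        rw [pow_zero, Nat.cast_zero, zero_mul]
        have h1 := hβ_mul 1 1
        rw [mul_one] at h1
        exact left_eq_add.1 h1
      | succ k ih =>
        rw [pow_succ, hβ_mul, ih, hβz]
        push_cast
        ring
    rw [hπ, hw_mul, hwpow, mul_one, hw_io, hβ_mul, hβ_io, hβpow, ZMod.natCast_zmod_val]
    refine Prod.ext ?_ ?_
    · change πP (Additive.ofMul (v' ^ 2)) = v
      rw [ofMul_pow, map_nsmul, hv', ← Nat.cast_smul_eq_nsmul (ZMod p), smul_smul]
      rw [show ((2 : ℕ) : ZMod p) * (2 : ZMod p)⁻¹ = 1 by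
        rw [Nat.cast_ofNat, mul_inv_cancel₀ h20], one_smul]
    · have h40 : (4 : ZMod p) ≠ 0 := by
        have : (4 : ZMod p) = 2 * 2 := by norm_num
        rw [this]
        exact mul_ne_zero h20 h20
      change 0 + (4 : ZMod p)⁻¹ * t * 4 = t
      rw [zero_add, mul_comm, ← mul_assoc, mul_inv_cancel₀ h40, one_mul]
  · -- the kernel
    intro x
    obtain ⟨u, rfl⟩ : ∃ u', Additive.ofMul u' = x := ⟨x.toMul, rfl⟩
    constructor
    · intro h
      rw [hπ, Prod.mk_eq_zero] at h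
      obtain ⟨y, hy⟩ := (hkerP _).1 h.1
      have h1 : w u = y.toMul ^ p := (congrArg Additive.toMul hy).symm
      have h2 : u * uA c u = (io hle y.toMul) ^ p := by rw [← hw, h1, map_pow]
      have h3 := hβ u
      rw [h.2, zp_zero] at h3
      have hcu0 : c ((u : 𝓞 (cyc p)) : cyc p) ≠ 0 := (map_ne_zero c).2 (hu0 u)
      have h4 : u ^ 4 = ((io hle y.toMul) ^ 2) ^ p := by
        rw [← pow_mul, mul_comm 2 p, pow_mul, ← h2]
        apply Units.ext
        apply RingOfIntegers.ext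
        change ((u : 𝓞 (cyc p)) : cyc p) ^ 4 =
          (((u : 𝓞 (cyc p)) : cyc p) * c ((u : 𝓞 (cyc p)) : cyc p)) ^ 2
        rw [div_pow, div_eq_one_iff_eq (pow_ne_zero _ hcu0)] at h3
        rw [mul_pow, ← h3]
        ring
      -- `4` is prime to `p`
      have hcop : Nat.Coprime 4 p := by
        have : Nat.Coprime 2 p := (Nat.coprime_primes Nat.prime_two hp).2 (Ne.symm hp2)
        exact Nat.Coprime.pow_left 2 this
      have h5 : IsCoprime (4 : ℤ) (p : ℤ) := by
        have := Nat.isCoprime_iff_coprime.2 hcop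
        exact_mod_cast this
      obtain ⟨s, t, hst⟩ := h5
      refine ⟨Additive.ofMul (((io hle y.toMul) ^ 2) ^ s * u ^ t), ?_⟩
      apply Additive.toMul.injective
      change (((io hle y.toMul) ^ 2) ^ s * u ^ t) ^ p = u
      rw [mul_pow, ← zpow_natCast (((io hle y.toMul) ^ 2) ^ s), ← zpow_mul, mul_comm s, zpow_mul,
        zpow_natCast, ← h4, ← zpow_natCast u 4, ← zpow_mul, ← zpow_natCast (u ^ t), ← zpow_mul,
        ← zpow_add]
      have : ((4 : ℕ) : ℤ) * s + t * (p : ℤ) = 1 := by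
        rw [← hst]
        push_cast
        ring
      rw [this, zpow_one]
    · rintro ⟨y, hy⟩
      rw [← hy, map_nsmul]
      refine Prod.ext ?_ ?_
      · funext i
        change p • (π y).1 i = 0
        rw [nsmul_eq_mul, CharP.cast_eq_zero, zero_mul]
      · change p • (π y).2 = 0
        rw [nsmul_eq_mul, CharP.cast_eq_zero, zero_mul]
  · -- the action
    intro u
    rw [hπ, hπ, hw_σ, hfP, hβ_σ]
    rfl
  · rw [Finset.card_insert_of_notMem hgA, hAP, Nat.sub_add_cancel Module.finrank_pos]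
    exact hdeg
  · rw [rank_eq, Nat.sub_add_cancel Module.finrank_pos]
    exact hdeg
  · intro a
    obtain ⟨a, rfl⟩ := e.surjective a
    rw [Basis.reindex_apply, e.symm_apply_apply]
    rcases a with a | a
    · have e1 : b0 (Sum.inl a) = (bP a, 0) := by
        refine Prod.ext ?_ ?_
        · exact Basis.prod_apply_inl_fst _ _ _
        · exact Basis.prod_apply_inl_snd _ _ _
      rw [e1]
      change (fP (bP a), g • (0 : ZMod p)) = (a : ZMod p) • (bP a, (0 : ZMod p))
      rw [hbP, smul_zero, Prod.smul_mk, smul_zero]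
    · have e1 : b0 (Sum.inr a) = (0, 1) := by
        refine Prod.ext ?_ ?_
        · exact Basis.prod_apply_inr_fst _ _ _
        · rw [Basis.prod_apply_inr_snd, Basis.singleton_apply]
      rw [e1]
      change (fP 0, g • (1 : ZMod p)) = g • ((0 : Fin (Units.rank KP) → ZMod p), (1 : ZMod p))
      rw [map_zero, Prod.smul_mk, smul_zero]

end Pool.Agent.H515.RG
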