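import Pool.Agent.H515.KV.All

/-! # The units of the field of the `p`-th roots of unity modulo `p`-th powers -/

set_option autoImplicit false
set_option linter.unusedSectionVars false
set_option linter.deprecated false

namespace Pool.Agent.H515.RG

open NumberField IsDedekindDomain Pool.Agent.H515.CH Pool.Agent.H515.KV Module

/-- the maximal real subfield -/
theorem exists_KP (p : ℕ) [Fact p.Prime] (hp2 : p ≠ 2) : ∃ KP : IntermediateField ℚ ℂ,
    KP ≤ cyc p ∧ (∀ x ∈ KP, starRingEnd ℂ x = x) ∧ (∀ x ∈ cyc p, starRingEnd ℂ x = x → x ∈ KP) ∧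
      2 * Module.finrank ℚ KP = p - 1 := by
  classical
  have hp : p.Prime := Fact.out
  have hcf : NumberField (cyc p) := nf (cyc_fin hp.ne_zero)
  have hce : IsCyclotomicExtension {p} ℚ (cyc p) := cyc_ext hp.ne_zero
  have hcg : IsGalois ℚ (cyc p) := (cyc_ab hp.ne_zero).toIsGalois
  obtain ⟨c, hc⟩ := exists_conj (k := cyc p)
  have hc2 : c ^ 2 = 1 := by
    ext x
    rw [pow_two, AlgEquiv.mul_apply, hc, hc, Complex.conj_conj]
    rfl
  have hc1 : c ≠ 1 := by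
    intro h
    have hζ := Complex.isPrimitiveRoot_exp p hp.ne_zero
    have hζm : Complex.exp (2 * Real.pi * Complex.I / p) ∈ cyc p :=
      IntermediateField.subset_adjoin ℚ _ hζ.pow_eq_one
    have h1 := hc ⟨_, hζm⟩
    rw [h] at h1
    have h2 : starRingEnd ℂ (Complex.exp (2 * Real.pi * Complex.I / p)) =
        Complex.exp (2 * Real.pi * Complex.I / p) := h1.symm
    obtain ⟨r, hr⟩ := Complex.conj_eq_iff_real.1 h2
    rw [hr] at hζ
    have h6 : IsPrimitiveRoot (r : ℂ) p := hζ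
    have h7 : (r : ℝ) ^ p = 1 := by
      have := h6.pow_eq_one
      exact_mod_cast this
    have hodd := hp.odd_of_ne_two hp2
    have h8 : r = 1 := by
      have h9 := (hodd.strictMono_pow (R := ℝ)).injective (a₁ := r) (a₂ := 1) (by
        simpa using h7)
      exact h9
    rw [h8, Complex.ofReal_one] at h6
    exact hp.one_lt.ne (h6.unique (IsPrimitiveRoot.one)).symm
  have hord : orderOf c = 2 := orderOf_eq_prime hc2 hc1
  let F0 : IntermediateField ℚ (cyc p) := IntermediateField.fixedField (Subgroup.zpowers c)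
  have hF0 : ∀ x : cyc p, x ∈ F0 ↔ c x = x := by
    intro x
    constructor
    · intro h
      exact h ⟨c, Subgroup.mem_zpowers c⟩
    · rintro h ⟨_, n, rfl⟩
      have h4 : c ∈ MulAction.stabilizer (cyc p ≃ₐ[ℚ] cyc p) x := h
      exact Subgroup.zpow_mem _ h4 n
  let f : cyc p →ₐ[ℚ] ℂ := (algebraMap (cyc p) ℂ).toRatAlgHom
  refine ⟨F0.map f, ?_, ?_, ?_, ?_⟩
  · rintro _ ⟨x, -, rfl⟩
    exact x.2
  · rintro _ ⟨x, hx, rfl⟩
    have h1 := hc x
    rw [(hF0 x).1 hx] at h1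
    exact h1.symm
  · intro x hx hxr
    refine ⟨⟨x, hx⟩, (hF0 _).2 ?_, rfl⟩
    apply Subtype.ext
    rw [hc]
    exact hxr
  · have h1 := IntermediateField.finrank_fixedField_eq_card (Subgroup.zpowers c)
    rw [Nat.card_zpowers, hord] at h1
    have h3 := Module.finrank_mul_finrank ℚ F0 (cyc p)
    have h4 : Module.finrank F0 (cyc p) = 2 := h1
    rw [h4, IsCyclotomicExtension.Rat.finrank p (cyc p), Nat.totient_prime hp] at h3
    rw [← h3, mul_comm]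
    congr 1
    exact ((F0.equivMap f).toLinearEquiv.finrank_eq).symm

section
variable {L : Type} [Field L] {p : ℕ} [Fact p.Prime] {ζ : L}

theorem zp_nat (hζ : IsPrimitiveRoot ζ p) (n : ℕ) : zp ζ (n : ZMod p) = ζ ^ n := by
  unfold zp
  rw [ZMod.val_natCast]
  conv_rhs => rw [← Nat.div_add_mod n p, pow_add, pow_mul, hζ.pow_eq_one, one_pow, one_mul]

end

section
variable {p : ℕ} [Fact p.Prime] [NumberField (cyc p)] {KP : IntermediateField ℚ ℂ} [NumberField KP]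
  (hle : KP ≤ cyc p) (hreal : ∀ x ∈ KP, starRingEnd ℂ x = x)
  (hmax : ∀ x ∈ cyc p, starRingEnd ℂ x = x → x ∈ KP)
  {c : cyc p ≃ₐ[ℚ] cyc p} (hc : ∀ x : cyc p, ((c x : cyc p) : ℂ) = starRingEnd ℂ (x : ℂ))

include hc in
theorem cc (x : cyc p) : c (c x) = x := by
  apply Subtype.ext
  rw [hc, hc, Complex.conj_conj]

/-- the inclusion of the units -/
noncomputable def io (hle : KP ≤ cyc p) : (𝓞 KP)ˣ →* (𝓞 (cyc p))ˣ :=
  letI := inc hle
  Units.map (algebraMap (𝓞 KP) (𝓞 (cyc p)) : 𝓞 KP →* 𝓞 (cyc p))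

theorem io_coe (w : (𝓞 KP)ˣ) : (((io hle w : 𝓞 (cyc p)) : cyc p) : ℂ) = (((w : 𝓞 KP) : KP) : ℂ) := rfl

theorem io_inj : Function.Injective (io hle) := by
  intro a b h
  apply Units.ext
  apply RingOfIntegers.ext
  apply Subtype.ext
  rw [← io_coe hle, ← io_coe hle, h]

include hle hmax hc in
theorem real_int (x : 𝓞 (cyc p)) (hx : c (x : cyc p) = x) :
    ∃ y : 𝓞 KP, (((y : KP)) : ℂ) = ((x : cyc p) : ℂ) := by
  have h1 : ((x : cyc p) : ℂ) ∈ KP := by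
    apply hmax _ (x : cyc p).2
    rw [← hc, hx]
  have h2 : IsIntegral ℤ (⟨((x : cyc p) : ℂ), h1⟩ : KP) := by
    have h3 : IsIntegral ℤ ((x : cyc p) : ℂ) := x.2.map (IsScalarTower.toAlgHom ℤ (cyc p) ℂ)
    exact (isIntegral_algHom_iff (IsScalarTower.toAlgHom ℤ KP ℂ) (algebraMap KP ℂ).injective).1 h3
  exact ⟨⟨_, h2⟩, rfl⟩

include hmax hc in
theorem real_unit (u : (𝓞 (cyc p))ˣ) (hu : uA c u = u) : ∃ w, io hle w = u := by
  have h1 : c ((u : 𝓞 (cyc p)) : cyc p) = ((u : 𝓞 (cyc p)) : cyc p) := by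
    rw [← coe_uA, hu]
  have h2 : uA c u⁻¹ = u⁻¹ := by rw [map_inv, hu]
  have h3 : c (((u⁻¹ : (𝓞 (cyc p))ˣ) : 𝓞 (cyc p)) : cyc p) =
      (((u⁻¹ : (𝓞 (cyc p))ˣ) : 𝓞 (cyc p)) : cyc p) := by
    rw [← coe_uA, h2]
  obtain ⟨a, ha⟩ := real_int hle hmax hc _ h1
  obtain ⟨b, hb⟩ := real_int hle hmax hc _ h3
  have hab : a * b = 1 := by
    apply RingOfIntegers.ext
    apply Subtype.ext
    have e1 : (((a * b : 𝓞 KP) : KP) : ℂ) = ((a : KP) : ℂ) * ((b : KP) : ℂ) := rfl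
    have e2 : ((u : 𝓞 (cyc p)) * ((u⁻¹ : (𝓞 (cyc p))ˣ) : 𝓞 (cyc p))) = 1 := Units.mul_inv u
    have e3 := congrArg (fun z : 𝓞 (cyc p) => ((z : cyc p) : ℂ)) e2
    rw [e1, ha, hb]
    exact e3
  refine ⟨⟨a, b, hab, by rw [mul_comm, hab]⟩, ?_⟩
  apply Units.ext
  apply RingOfIntegers.ext
  apply Subtype.ext
  exact ha

include hmax hc in
theorem exists_w' (u : (𝓞 (cyc p))ˣ) : ∃ w, io hle w = u * uA c u := by
  apply real_unit hle hmax hc
  rw [map_mul, mul_comm]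
  congr 1
  apply Units.ext
  apply RingOfIntegers.ext
  exact cc hc _

include hc in
theorem emb_conj (φ : cyc p →+* ℂ) (x : cyc p) : φ (c x) = starRingEnd ℂ (φ x) := by
  have hp : p.Prime := Fact.out
  let a : cyc p →ₐ[ℚ] ℂ := (φ.comp (c : cyc p →+* cyc p)).toRatAlgHom
  let b : cyc p →ₐ[ℚ] ℂ := ((starRingEnd ℂ).comp φ).toRatAlgHom
  have h2 : Algebra.adjoin ℚ {x : cyc p | x ^ p = 1} = ⊤ := by
    rw [← IntermediateField.adjoin_toSubalgebra_of_isAlgebraic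
      (fun x _ => Algebra.IsAlgebraic.isAlgebraic x), cyc_top hp.ne_zero]
    rfl
  have h3 : a = b := by
    refine AlgHom.ext_of_adjoin_eq_top h2 fun x hx => ?_
    have hx0 : x ≠ 0 := by
      rintro rfl
      have : (0 : cyc p) ^ p = 1 := hx
      rw [zero_pow hp.ne_zero] at this
      exact zero_ne_one this
    have hroot : ∀ z : ℂ, z ^ p = 1 → starRingEnd ℂ z = z⁻¹ := by
      intro z hz
      have h4 : ‖z‖ = 1 := Complex.norm_eq_one_of_pow_eq_one hz hp.ne_zero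
      rw [Complex.inv_def, Complex.normSq_eq_norm_sq, h4]
      simp
    have h4 : c x = x⁻¹ := by
      apply Subtype.ext
      rw [hc, hroot]
      · rfl
      · exact congrArg Subtype.val hx
    change φ (c x) = starRingEnd ℂ (φ x)
    rw [h4, map_inv₀, hroot]
    rw [← map_pow]
    have : x ^ p = 1 := hx
    rw [this, map_one]
  exact DFunLike.congr_fun h3 x

include hc in
theorem exists_beta {ζ : cyc p} (hp2 : p ≠ 2) (hζ : IsPrimitiveRoot ζ p) (u : (𝓞 (cyc p))ˣ) :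
    ∃ β : ZMod p, (((u : 𝓞 (cyc p)) : cyc p) / c ((u : 𝓞 (cyc p)) : cyc p)) ^ 2 = zp ζ β := by
  have hp : p.Prime := Fact.out
  have hce : IsCyclotomicExtension {p} ℚ (cyc p) := cyc_ext hp.ne_zero
  let t : (𝓞 (cyc p))ˣ := u * (uA c u)⁻¹
  have ht : ((t : 𝓞 (cyc p)) : cyc p) = ((u : 𝓞 (cyc p)) : cyc p) / c ((u : 𝓞 (cyc p)) : cyc p) := by
    have e1 : ((t : 𝓞 (cyc p)) : cyc p) =
        ((u : 𝓞 (cyc p)) : cyc p) * ((((uA c u)⁻¹ : (𝓞 (cyc p))ˣ) : 𝓞 (cyc p)) : cyc p) := rfl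
    rw [e1, div_eq_mul_inv]
    congr 1
    rw [eq_comm, inv_eq_iff_eq_inv]
    have e2 := congrArg (fun z : 𝓞 (cyc p) => (z : cyc p)) (Units.mul_inv (uA c u))
    have e3 : ((uA c u : 𝓞 (cyc p)) : cyc p) * ((((uA c u)⁻¹ : (𝓞 (cyc p))ˣ) : 𝓞 (cyc p)) : cyc p) = 1 := e2
    rw [← coe_uA]
    exact eq_inv_of_mul_eq_one_left e3
  have hu0 : ((u : 𝓞 (cyc p)) : cyc p) ≠ 0 := fun h => u.ne_zero (RingOfIntegers.ext h)
  obtain ⟨n, hn, hn1⟩ := NumberField.Embeddings.pow_eq_one_of_norm_eq_one (cyc p) ℂ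
    (x := ((t : 𝓞 (cyc p)) : cyc p)) (t : 𝓞 (cyc p)).2 (by
      intro φ
      rw [ht, map_div₀, emb_conj hc, norm_div, Complex.norm_conj, div_self]
      rw [Ne, norm_eq_zero, map_eq_zero]
      exact hu0)
  have hfin : IsOfFinOrder ((t : 𝓞 (cyc p)) : cyc p) := isOfFinOrder_iff_pow_eq_one.2 ⟨n, hn, hn1⟩
  obtain ⟨r, hr⟩ := hζ.exists_neg_pow_of_isOfFinOrder (hp.odd_of_ne_two hp2) hfin
  refine ⟨((r * 2 : ℕ) : ZMod p), ?_⟩
  rw [← ht, hr, zp_nat hζ, ← pow_mul, mul_comm r 2, pow_mul, neg_sq, ← pow_mul]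

end

end Pool.Agent.H515.RG
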